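import Pool.Agent.H680R3.ZP.Stmts

/-!
# Task MO (Mono) of project ZP
-/

set_option autoImplicit false

namespace Pool.Agent.H352.ZP

open Pool.Agent.H707R3

theorem taskMono : H680ZP.TaskMono := by
  intro p _ A B hAB hB
  have hle : genField A ≤ genField B := by
    unfold genField
    apply IntermediateField.adjoin.mono
    intro x hx
    exact hAB x hx
  have hmul : ramIdx (genField A) * (valGroup (genField A)).relIndex (valGroup (genField B)) =
      ramIdx (genField B) :=
    Subgroup.relIndex_mul_relIndex _ _ _ (valGroup_mono bot_le) (valGroup_mono hle)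
  have h0 := ramIdx_ne_zero B hB
  rw [← hmul] at h0 ⊢
  exact Nat.le_mul_of_pos_right _ (Nat.pos_of_ne_zero (right_ne_zero_of_mul h0))

end Pool.Agent.H352.ZP
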